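import Pool.Agent.N88.FPR.Kunz
import Pool.Agent.N88.FPR.Order

/-!
# Excellent regular rings of prime characteristic are F-pure regular

Let `R` be an excellent regular ring of prime characteristic `p` and `c` an element of `R` outside
the minimal primes. The orders of `c` at the points of `Spec R` are bounded: at a prime `P` with
local parameters `x_1, ..., x_h` (if `P` is not maximal its residue field is infinite, and after a
linear change of the parameters `c` is a unit times `x_1 ^ n` modulo `(x_2, ..., x_h)`) the order at
the points `Q` of the closure of `P` outside a smaller closed set is at most `n`, since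
`x_1 ^ (n + 1)` and `c` together with the other parameters would otherwise give a system of
`dim R_Q - 1` elements generating an ideal primary to the maximal ideal. Hence there is `e` with
`c ∉ m ^ (p ^ e)` for all maximal ideals `m`, and purity of `λ_c^e` follows from the flatness of
Frobenius (Kunz), which is also proved here.
-/

set_option autoImplicit false

universe u v

open IsLocalRing
open scoped TensorProduct

namespace Pool.Agent.Results.MP_9ff724_al.ExcellentRegular

/-- The additive group `F^e_* R`, that is `R` itself; the module structure is given below. -/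
def FrobPush (R : Type u) (_p _e : ℕ) : Type u := R

instance (R : Type u) [CommRing R] (p e : ℕ) : AddCommGroup (FrobPush R p e) :=
  inferInstanceAs (AddCommGroup R)

/-- The `R`-module structure of `F^e_* R`: an element `r` acts as multiplication by
`r ^ (p ^ e)`. -/
noncomputable instance (R : Type u) [CommRing R] (p e : ℕ) [Fact p.Prime] [CharP R p] :
    Module R (FrobPush R p e) := Module.compHom R (iterateFrobenius R p e)

/-- The `R`-linear map `λ_c^e : R → F^e_* R`, `r ↦ F^e_* (c r ^ (p ^ e))`. -/
noncomputable def lam (R : Type u) [CommRing R] (p e : ℕ) [Fact p.Prime] [CharP R p] (c : R) :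
    R →ₗ[R] FrobPush R p e where
  toFun r := (c * r ^ (p ^ e) : R)
  map_add' r s := by
    change c * (r + s) ^ (p ^ e) = c * r ^ (p ^ e) + c * s ^ (p ^ e)
    rw [add_pow_expChar_pow, mul_add]
  map_smul' r s := by
    change c * (r * s) ^ (p ^ e) = iterateFrobenius R p e r * (c * s ^ (p ^ e))
    rw [iterateFrobenius_def, mul_pow]
    ring

/-- A linear map `f : M → N` is pure if `M ⊗ P → N ⊗ P` is injective for every module `P`. -/
def IsPureMap {R : Type u} [CommRing R] {M N : Type u} [AddCommGroup M] [Module R M]
    [AddCommGroup N] [Module R N] (f : M →ₗ[R] N) : Prop :=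
  ∀ (P : Type v) [AddCommGroup P] [Module R P], Function.Injective (f.rTensor P)

/-- `R` is F-pure regular: for every `c` outside all minimal primes some `λ_c^e`, `e ≥ 1`, is
pure. -/
def IsFPureRegular (R : Type u) [CommRing R] (p : ℕ) [Fact p.Prime] [CharP R p] : Prop :=
  ∀ c : R, (∀ P ∈ minimalPrimes R, c ∉ P) → ∃ e ≥ 1, IsPureMap.{u, v} (lam R p e c)

/-- The points at which `A` is regular form an open subset of `Spec A`. -/
def OpenRegularLocus (A : Type u) [CommRing A] : Prop :=
  IsOpen {x : PrimeSpectrum A | IsRegularLocalRing (Localization.AtPrime x.asIdeal)}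

/-- `A` is catenary: two saturated chains of primes with the same ends have the same length. -/
def IsCatenaryRing (A : Type u) [CommRing A] : Prop :=
  ∀ s t : RelSeries {(x, y) : PrimeSpectrum A × PrimeSpectrum A | x ⋖ y},
    s.head = t.head → s.last = t.last → s.length = t.length

/-- `R` is excellent: noetherian, J-2 (every algebra of finite type has an open regular locus),
universally catenary, and all formal fibres of its localizations are geometrically regular. -/
structure IsExcellentRing (R : Type u) [CommRing R] : Prop where
  noetherian : IsNoetherianRing R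
  j2 : ∀ (A : Type u) [CommRing A] [Algebra R A] [Algebra.FiniteType R A], OpenRegularLocus A
  catenary : ∀ (A : Type u) [CommRing A] [Algebra R A] [Algebra.FiniteType R A], IsCatenaryRing A
  fibres : ∀ (P : Ideal R) [P.IsPrime] (q : Ideal (Localization.AtPrime P)) [q.IsPrime]
    (L : Type u) [Field L] [Algebra q.ResidueField L] [FiniteDimensional q.ResidueField L]
    [Algebra (Localization.AtPrime P) L] [IsScalarTower (Localization.AtPrime P) q.ResidueField L],
    IsRegularRing (L ⊗[Localization.AtPrime P]
      AdicCompletion (maximalIdeal (Localization.AtPrime P)) (Localization.AtPrime P))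

/-- The regular locus of the domain `A` contains a nonempty (basic) open set. -/
def GenericallyRegular (A : Type u) [CommRing A] : Prop :=
  ∃ f : A, f ≠ 0 ∧ ∀ (q : Ideal A) [q.IsPrime], f ∉ q →
    IsRegularLocalRing (Localization.AtPrime q)

theorem generic_of_open {A : Type u} [CommRing A] [IsDomain A] (h : OpenRegularLocus A) :
    GenericallyRegular A := by
  have hbot : (⟨⊥, Ideal.isPrime_bot⟩ : PrimeSpectrum A) ∈
      {x : PrimeSpectrum A | IsRegularLocalRing (Localization.AtPrime x.asIdeal)} := by
    change IsRegularLocalRing (Localization.AtPrime (⊥ : Ideal A))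
    let : Field (Localization.AtPrime (⊥ : Ideal A)) := IsField.toField <| by
      simp [isField_iff_maximalIdeal_eq, ← Localization.AtPrime.map_eq_maximalIdeal]
    infer_instance
  obtain ⟨V, ⟨f, rfl⟩, hf, hV⟩ :=
    PrimeSpectrum.isTopologicalBasis_basic_opens.exists_subset_of_mem_open hbot h
  refine ⟨f, fun h0 => ?_, fun q hq hfq => ?_⟩
  · apply hf
    change f ∈ (⊥ : Ideal A)
    rw [h0]
    exact zero_mem _
  · exact hV (show (⟨q, hq⟩ : PrimeSpectrum A) ∈ _ from hfq)

/-- purity from nonmembership -/
theorem pure_of_notMem (R : Type u) [CommRing R] [IsRegularRing R] (p : ℕ) [hp : Fact p.Prime]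
    [CharP R p] (e N : ℕ) (hN : N ≤ p ^ e) (c : R)
    (hc : ∀ m : Ideal R, m.IsMaximal → c ∉ m ^ N) : IsPureMap.{u, v} (lam R p e c) := by
  have hflat : Module.Flat R (FrobPush R p e) := N88.FPR.regular_frob_flat R p e
  intro P _ _
  rw [injective_iff_map_eq_zero]
  intro u hu
  obtain ⟨z, rfl⟩ : ∃ z : P, (1 : R) ⊗ₜ z = u :=
    ⟨TensorProduct.lid R P u, by
      apply (TensorProduct.lid R P).injective
      rw [TensorProduct.lid_tmul, one_smul]⟩
  rw [LinearMap.rTensor_tmul] at hu
  by_cases hz : z = 0
  · rw [hz, TensorProduct.tmul_zero]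
  exfalso
  let J : Ideal R := LinearMap.ker (LinearMap.toSpanSingleton R P z)
  have hJ : J ≠ ⊤ := by
    intro h
    apply hz
    have h1 : (1 : R) ∈ J := by rw [h]; exact Submodule.mem_top
    simpa [J] using h1
  obtain ⟨m, hm, hJm⟩ := Ideal.exists_le_maximal J hJ
  -- `R / J` embeds in `P`
  let ι : (R ⧸ J) →ₗ[R] P := Submodule.liftQ J (LinearMap.toSpanSingleton R P z) le_rfl
  have hι : Function.Injective ι := by
    rw [← LinearMap.ker_eq_bot]
    exact Submodule.ker_liftQ_eq_bot' _ _ rfl
  have h1 := Module.Flat.lTensor_preserves_injective_linearMap (M := FrobPush R p e) ι hι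
  have h2 : (lam R p e c 1 : FrobPush R p e) ⊗ₜ[R] (Submodule.Quotient.mk (p := J) (1 : R)) = 0 := by
    apply h1
    rw [map_zero, LinearMap.lTensor_tmul]
    have : ι (Submodule.Quotient.mk (p := J) (1 : R)) = z := by
      change LinearMap.toSpanSingleton R P z 1 = z
      simp
    rw [this]
    exact hu
  have h3 := congrArg (TensorProduct.tensorQuotEquivQuotSMul (FrobPush R p e) J) h2
  rw [map_zero] at h3
  have h4 : (lam R p e c 1 : FrobPush R p e) ∈ (J • (⊤ : Submodule R (FrobPush R p e))) := by
    rw [← Submodule.Quotient.mk_eq_zero, ← h3]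
    have := TensorProduct.tensorQuotEquivQuotSMul_tmul_mk (M := FrobPush R p e) J
      (lam R p e c 1) 1
    rw [one_smul] at this
    exact this.symm
  have h5 : ∀ x : FrobPush R p e, x ∈ (J • (⊤ : Submodule R (FrobPush R p e))) →
      (show R from x) ∈ m ^ N := by
    intro x hx
    refine Submodule.smul_induction_on hx ?_ ?_
    · intro r hr n _
      change iterateFrobenius R p e r * (show R from n) ∈ m ^ N
      rw [iterateFrobenius_def]
      exact Ideal.mul_mem_right _ _ (Ideal.pow_le_pow_right hN (Ideal.pow_mem_pow (hJm hr) _))
    · intro x y hx hy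
      exact add_mem hx hy
  have h6 := h5 _ h4
  apply hc m hm
  have h7 : (show R from (lam R p e c 1)) = c := by
    change c * 1 ^ (p ^ e) = c
    rw [one_pow, mul_one]
  rw [h7] at h6
  exact h6

/-- **Every excellent regular ring `R` of prime characteristic `p` is F-pure regular.** More
generally this holds for a regular ring `R` of characteristic `p` such that for every prime `P` the
regular locus of `R / P` contains a nonempty open set. -/
theorem result (R : Type u) [CommRing R] [IsRegularRing R] (p : ℕ) [Fact p.Prime] [CharP R p]
    (hR : IsExcellentRing R ∨ ∀ P : Ideal R, P.IsPrime → GenericallyRegular (R ⧸ P)) :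
    IsFPureRegular.{u, v} R p := by
  have hJ : ∀ P : Ideal R, P.IsPrime → GenericallyRegular (R ⧸ P) := by
    rcases hR with hR | hR
    · intro P hP
      exact generic_of_open (hR.j2 (R ⧸ P))
    · exact hR
  intro c hc
  obtain ⟨N, hN⟩ := N88.FPR.bounded_order hJ c hc
  have hp : 1 < p := (Fact.out : p.Prime).one_lt
  refine ⟨N + 1, by omega, pure_of_notMem R p (N + 1) N ?_ c ?_⟩
  · exact (Nat.lt_pow_self hp).le.trans (Nat.pow_le_pow_right (by omega) (by omega))
  · intro m hm hcm
    refine hN m hm.isPrime ⟨1, fun h => hm.ne_top ((Ideal.eq_top_iff_one _).2 h), ?_⟩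
    rw [one_mul]
    exact hcm

end Pool.Agent.Results.MP_9ff724_al.ExcellentRegular
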